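import Pool.Agent.Helper93.HZ.Spec1
import Pool.Agent.Helper93.HZ.Lib

/-! # HZ, module OPT: optimal complexes exist -/

set_option autoImplicit false

open MulAction Pointwise

namespace Pool.Agent.Helper93.HZ

theorem opt_min {α : Type 1} (P : α → Prop) (f : α → ℕ) (h : ∃ K, P K) :
    ∃ K, P K ∧ ∀ K', P K' → f K ≤ f K' := by
  classical
  have hex : ∃ n, ∃ K, P K ∧ f K = n := by
    obtain ⟨K, hK⟩ := h
    exact ⟨f K, K, hK, rfl⟩
  obtain ⟨K, hK, hKn⟩ := Nat.find_spec hex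
  refine ⟨K, hK, fun K' hK' => ?_⟩
  rw [hKn]
  exact Nat.find_min' hex ⟨K', hK', rfl⟩

theorem opt_nn {G : Type} [Group G] (K : Cx G) : nn K ≤ 3 * rr K := by
  obtain ⟨h1, h2⟩ := K.finOrb_tv
  refine le_trans (oc_mono h1 ?_) h2
  rintro x ⟨hx, -, -⟩
  exact hx

theorem st_OPT : ST_OPT := by
  intro G _ hne
  refine ⟨?_, fun K => opt_nn K⟩
  obtain ⟨K⟩ := hne
  obtain ⟨K0, -, h0⟩ := opt_min (fun _ : Cx G => True) (fun K => rr K) ⟨K, trivial⟩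
  obtain ⟨K1, h1, h1'⟩ := opt_min (fun K' : Cx G => rr K' = rr K0)
    (fun K' => 3 * rr K0 - nn K') ⟨K0, rfl⟩
  obtain ⟨K2, h2, h2'⟩ := opt_min (fun K' : Cx G => rr K' = rr K0 ∧ nn K' = nn K1)
    (fun K' => dd K') ⟨K1, h1, rfl⟩
  have hmax : ∀ K' : Cx G, rr K' = rr K0 → nn K' ≤ nn K1 := by
    intro K' hK'
    have a1 := h1' K' hK'
    have a2 := opt_nn K'
    have a3 := opt_nn K1
    rw [hK'] at a2
    rw [h1] at a3
    omega
  refine ⟨K2, ⟨⟨?_, ?_⟩, ?_⟩⟩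
  · intro K'
    rw [h2.1]
    exact h0 K' trivial
  · intro K' hK'
    rw [h2.1] at hK'
    rw [h2.2]
    exact hmax K' hK'
  · intro K' hK' hK''
    rw [h2.1] at hK'
    rw [h2.2] at hK''
    exact h2' K' ⟨hK', hK''⟩

end Pool.Agent.Helper93.HZ
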