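import Pool.Agent.Helper93.HZ.Spec1
import Pool.Agent.Helper93.HZ.Lib

/-! # HZ, module QUO: quotients of complexes -/

set_option autoImplicit false

open MulAction Pointwise

namespace Pool.Agent.Helper93.HZ

section quo

variable {G : Type} [Group G] {K : Cx G} {E : K.V → K.V → Prop} (hE : Equivalence E)
  (hG : ∀ (g : G) x y, E x y → E (g • x) (g • y))

def quoS (hE : Equivalence E) : Setoid K.V := ⟨E, hE⟩

def quoP (hE : Equivalence E) (x : K.V) : Quotient (quoS hE) := Quotient.mk (quoS hE) x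

theorem quoP_eq {x y : K.V} : quoP hE x = quoP hE y ↔ E x y := by
  constructor
  · intro h
    exact Quotient.exact h
  · intro h
    exact Quotient.sound (s := quoS hE) h

theorem quoP_surj (p : Quotient (quoS hE)) : ∃ x, quoP hE x = p := by
  obtain ⟨x, hx⟩ := Quotient.exists_rep p
  exact ⟨x, hx⟩

/-- the action on the quotient -/
@[reducible] def quoAct (hE : Equivalence E) (hG : ∀ (g : G) x y, E x y → E (g • x) (g • y)) :
    MulAction G (Quotient (quoS hE)) where
  smul g := Quotient.map (fun x => g • x) (fun x y h => hG g x y h)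
  one_smul := by
    intro p
    obtain ⟨x, rfl⟩ := quoP_surj hE p
    show quoP hE ((1 : G) • x) = quoP hE x
    rw [one_smul]
  mul_smul := by
    intro g h p
    obtain ⟨x, rfl⟩ := quoP_surj hE p
    show quoP hE ((g * h) • x) = quoP hE (g • h • x)
    rw [mul_smul]

def quoAdj (hE : Equivalence E) (p q : Quotient (quoS hE)) : Prop :=
  p ≠ q ∧ ∃ x y, K.adj x y ∧ quoP hE x = p ∧ quoP hE y = q

def quoTri (hE : Equivalence E) (p q r : Quotient (quoS hE)) : Prop :=
  p ≠ q ∧ q ≠ r ∧ p ≠ r ∧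
    ∃ x y z, K.tri x y z ∧ quoP hE x = p ∧ quoP hE y = q ∧ quoP hE z = r

theorem quo_sc (hc : ∀ x y, E x y → Relation.ReflTransGen (fun p q => K.adj p q ∧ E p q) x y) :
    SC (quoAdj hE) (quoTri hE) := by
  classical
  intro H _ c h2 h3
  set cK : K.V → K.V → H := fun x y => if E x y then 1 else c (quoP hE x) (quoP hE y) with hcK
  have e1 : ∀ x y, E x y → cK x y = 1 := fun x y h => by rw [hcK]; exact if_pos h
  have e2 : ∀ x y, ¬ E x y → cK x y = c (quoP hE x) (quoP hE y) := fun x y h => by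
    rw [hcK]; exact if_neg h
  have hsym : ∀ x y, E x y → E y x := fun x y h => hE.symm h
  have hadj : ∀ x y, K.adj x y → ¬ E x y → quoAdj hE (quoP hE x) (quoP hE y) := by
    intro x y h hn
    exact ⟨fun e => hn ((quoP_eq hE).1 e), x, y, h, rfl, rfl⟩
  have hanti : ∀ x y, K.adj x y → cK x y * cK y x = 1 := by
    intro x y h
    by_cases hxy : E x y
    · rw [e1 x y hxy, e1 y x (hsym _ _ hxy), one_mul]
    · have hyx : ¬ E y x := fun h' => hxy (hsym _ _ h')
      rw [e2 x y hxy, e2 y x hyx]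
      exact h2 _ _ (hadj x y h hxy)
  -- replacing a vertex by an equivalent one
  have hrep : ∀ x y z, E x y → cK x z = cK y z ∧ cK z x = cK z y := by
    intro x y z hxy
    have hq : quoP hE x = quoP hE y := (quoP_eq hE).2 hxy
    by_cases hxz : E x z
    · have hyz : E y z := hE.trans (hsym _ _ hxy) hxz
      rw [e1 _ _ hxz, e1 _ _ hyz, e1 _ _ (hsym _ _ hxz), e1 _ _ (hsym _ _ hyz)]
      exact ⟨rfl, rfl⟩
    · have hyz : ¬ E y z := fun h => hxz (hE.trans hxy h)
      have hzx : ¬ E z x := fun h => hxz (hsym _ _ h)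
      have hzy : ¬ E z y := fun h => hyz (hsym _ _ h)
      rw [e2 _ _ hxz, e2 _ _ hyz, e2 _ _ hzx, e2 _ _ hzy, hq]
      exact ⟨rfl, rfl⟩
  have htri : ∀ x y z, K.tri x y z → cK x y * cK y z * cK z x = 1 := by
    intro x y z h
    obtain ⟨a1, a2, a3, a4, a5, a6⟩ := K.tri_adj' h
    by_cases hxy : E x y
    · rw [e1 _ _ hxy, one_mul, (hrep x y z hxy).2]
      exact hanti y z a2
    by_cases hyz : E y z
    · rw [e1 _ _ hyz, mul_one, (hrep y z x hyz).2]
      exact hanti x z a6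
    by_cases hxz : E x z
    · rw [e1 _ _ (hsym _ _ hxz), mul_one, (hrep x z y hxz).1]
      exact hanti z y a5
    · have hzx : ¬ E z x := fun h' => hxz (hsym _ _ h')
      rw [e2 _ _ hxy, e2 _ _ hyz, e2 _ _ hzx]
      exact h3 _ _ _ ⟨fun e => hxy ((quoP_eq hE).1 e), fun e => hyz ((quoP_eq hE).1 e),
        fun e => hxz ((quoP_eq hE).1 e), x, y, z, h, rfl, rfl, rfl⟩
  obtain ⟨f, hf⟩ := K.sc H cK hanti htri
  have hconst : ∀ x y, E x y → f x = f y := by
    intro x y hxy
    have := hc x y hxy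
    induction this with
    | refl => rfl
    | tail _ hbc ih =>
      rename_i b d _
      have hxb : E x b := by
        have hbd := hbc.2
        exact hE.trans hxy (hsym _ _ hbd)
      rw [ih hxb]
      have h4 := hf _ _ hbc.1
      rw [e1 _ _ hbc.2] at h4
      exact (inv_mul_eq_one.1 h4.symm)
  refine ⟨fun p => f (Classical.choose (quoP_surj hE p)), ?_⟩
  rintro p q ⟨hne, x, y, hxy, rfl, rfl⟩
  have hx := Classical.choose_spec (quoP_surj hE (quoP hE x))
  have hy := Classical.choose_spec (quoP_surj hE (quoP hE y))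
  have hx' := hconst _ _ ((quoP_eq hE).1 hx)
  have hy' := hconst _ _ ((quoP_eq hE).1 hy)
  have hnE : ¬ E x y := fun h => hne ((quoP_eq hE).2 h)
  show c (quoP hE x) (quoP hE y) = _
  rw [← e2 x y hnE, hf x y hxy]
  show (f x)⁻¹ * f y = (f (Classical.choose (quoP_surj hE (quoP hE x))))⁻¹ *
    f (Classical.choose (quoP_surj hE (quoP hE y)))
  rw [hx', hy']

theorem quo_conn (x y : K.V) : Relation.ReflTransGen (quoAdj hE) (quoP hE x) (quoP hE y) := by
  have := K.conn x y
  induction this with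
  | refl => exact Relation.ReflTransGen.refl
  | tail _ hbc ih =>
    rename_i b d _
    by_cases h : E b d
    · rw [← (quoP_eq hE).2 h]
      exact ih
    · exact Relation.ReflTransGen.tail ih
        ⟨fun e => h ((quoP_eq hE).1 e), b, d, hbc, rfl, rfl⟩

theorem quo_exit {x y : K.V} (h : Relation.ReflTransGen K.adj x y) (hn : ¬ E x y)
    (hE : Equivalence E) : ∃ a b, E x a ∧ ¬ E x b ∧ K.adj a b := by
  induction h with
  | refl => exact absurd (hE.refl _) hn
  | tail _ hbc ih =>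
    rename_i b d _
    by_cases hb : E x b
    · exact ⟨b, d, hb, hn, hbc⟩
    · exact ih hb

theorem quo_nbr (h2 : ∃ x y, ¬ E x y) (x : K.V) : ∃ q, quoAdj hE (quoP hE x) q := by
  have : ∃ y, ¬ E x y := by
    by_contra hcon
    push Not at hcon
    obtain ⟨a, b, hab⟩ := h2
    exact hab (hE.trans (hE.symm (hcon a)) (hcon b))
  obtain ⟨y, hy⟩ := this
  obtain ⟨a, b, ha, hb, hab⟩ := quo_exit (K.conn x y) hy hE
  refine ⟨quoP hE b, ?_, a, b, hab, ?_, rfl⟩
  · intro e
    exact hb ((quoP_eq hE).1 e)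
  · exact ((quoP_eq hE).2 ha).symm

theorem quo_image_smul (g : G) (s : Set K.V) :
    letI := quoAct hE hG
    quoP hE '' (g • s) = g • (quoP hE '' s) := by
  letI := quoAct hE hG
  ext p
  constructor
  · rintro ⟨_, ⟨x, hx, rfl⟩, rfl⟩
    exact ⟨quoP hE x, ⟨x, hx, rfl⟩, rfl⟩
  · rintro ⟨_, ⟨x, hx, rfl⟩, rfl⟩
    exact ⟨g • x, ⟨x, hx, rfl⟩, rfl⟩

theorem quo_image_triple (x y z : K.V) :
    quoP hE '' {x, y, z} = {quoP hE x, quoP hE y, quoP hE z} := by
  rw [Set.image_insert_eq, Set.image_insert_eq, Set.image_singleton]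

/-- the quotient complex -/
def quoCx (hE : Equivalence E) (hG : ∀ (g : G) x y, E x y → E (g • x) (g • y))
    (hc : ∀ x y, E x y → Relation.ReflTransGen (fun p q => K.adj p q ∧ E p q) x y)
    (h2 : ∃ x y, ¬ E x y)
    (hs : ∀ (x : K.V) (S : Subgroup G), (∀ g, g ∈ S ↔ E x (g • x)) → FC S) : Cx G where
  V := Quotient (quoS hE)
  act := quoAct hE hG
  adj := quoAdj hE
  tri := quoTri hE
  ne := by
    obtain ⟨x⟩ := K.ne
    exact ⟨quoP hE x⟩
  symm := by
    rintro p q ⟨hne, x, y, h, hx, hy⟩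
    exact ⟨hne.symm, y, x, K.symm _ _ h, hy, hx⟩
  irrefl := by
    rintro p ⟨hne, -⟩
    exact hne rfl
  nbr := by
    intro p
    obtain ⟨x, rfl⟩ := quoP_surj hE p
    exact quo_nbr hE h2 x
  tri_adj := by
    rintro p q r ⟨h1, h2, h3, x, y, z, h, hx, hy, hz⟩
    exact ⟨h1, x, y, K.tri_adj _ _ _ h, hx, hy⟩
  tri_rot := by
    rintro p q r ⟨h1, h2, h3, x, y, z, h, hx, hy, hz⟩
    exact ⟨h2, h3.symm, h1.symm, y, z, x, K.tri_rot _ _ _ h, hy, hz, hx⟩
  tri_swap := by
    rintro p q r ⟨h1, h2, h3, x, y, z, h, hx, hy, hz⟩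
    exact ⟨h1.symm, h3, h2, y, x, z, K.tri_swap _ _ _ h, hy, hx, hz⟩
  smul_adj := by
    letI := quoAct hE hG
    rintro g p q ⟨hne, x, y, h, rfl, rfl⟩
    refine ⟨fun e => hne (smul_left_cancel g e), g • x, g • y, K.smul_adj g _ _ h, rfl, rfl⟩
  smul_tri := by
    letI := quoAct hE hG
    rintro g p q r ⟨h1, h2, h3, x, y, z, h, rfl, rfl, rfl⟩
    exact ⟨fun e => h1 (smul_left_cancel g e), fun e => h2 (smul_left_cancel g e),
      fun e => h3 (smul_left_cancel g e), g • x, g • y, g • z, K.smul_tri g _ _ _ h,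
      rfl, rfl, rfl⟩
  conn := by
    intro p q
    obtain ⟨x, rfl⟩ := quoP_surj hE p
    obtain ⟨y, rfl⟩ := quoP_surj hE q
    exact quo_conn hE x y
  sc := quo_sc hE hc
  finE := by
    letI := quoAct hE hG
    refine (FinOrb.map (fun p : K.V × K.V => ((quoP hE p.1, quoP hE p.2) :
      Quotient (quoS hE) × Quotient (quoS hE))) K.finE (fun g x _ _ => rfl) ?_).1
    rintro ⟨p, q⟩ ⟨hne, x, y, h, hx, hy⟩
    refine ⟨(x, y), h, 1, ?_⟩
    rw [one_smul]
    exact Prod.ext hx.symm hy.symm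
  finT := by
    letI := quoAct hE hG
    refine (FinOrb.map (fun s : Set K.V => quoP hE '' s) K.finT
      (fun g s _ _ => quo_image_smul hE hG g s) ?_).1
    rintro _ ⟨p, q, r, ⟨h1, h2, h3, x, y, z, h, rfl, rfl, rfl⟩, rfl⟩
    refine ⟨{x, y, z}, ⟨x, y, z, h, rfl⟩, 1, ?_⟩
    rw [one_smul, quo_image_triple]
  stab := by
    letI := quoAct hE hG
    intro p
    obtain ⟨x, rfl⟩ := quoP_surj hE p
    refine hs x (stabilizer G (quoP hE x)) (fun g => ?_)
    rw [mem_stabilizer_iff]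
    show quoP hE (g • x) = quoP hE x ↔ _
    rw [quoP_eq]
    exact ⟨fun h => hE.symm h, fun h => hE.symm h⟩

end quo

theorem quo_count {G : Type} [Group G] (K : Cx G) (E : K.V → K.V → Prop) (hE : Equivalence E)
    (hG : ∀ (g : G) x y, E x y → E (g • x) (g • y)) :
    letI := quoAct hE hG
    oc G {s : Set (Quotient (quoS hE)) | ∃ x y z, quoTri hE x y z ∧ s = {x, y, z}} +
      oc G {s : Set K.V | ∃ x y z, K.tri x y z ∧ E x y ∧ s = {x, y, z}} ≤ rr K := by
  letI := quoAct hE hG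
  set A : Set (Set K.V) := {s | ∃ x y z, K.tri x y z ∧ ¬ E x y ∧ ¬ E y z ∧ ¬ E x z ∧
    s = {x, y, z}} with hA
  set B : Set (Set K.V) := {s | ∃ x y z, K.tri x y z ∧ E x y ∧ s = {x, y, z}} with hB
  set T : Set (Set K.V) := {s | ∃ x y z, K.tri x y z ∧ s = {x, y, z}} with hT
  have hAT : A ⊆ T := by
    rintro _ ⟨x, y, z, h, -, -, -, rfl⟩
    exact ⟨x, y, z, h, rfl⟩
  have hBT : B ⊆ T := by
    rintro _ ⟨x, y, z, h, -, rfl⟩
    exact ⟨x, y, z, h, rfl⟩
  have hTf : FinOrb G T := K.finT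
  have hAf : FinOrb G A := hTf.mono hAT
  have hBf : FinOrb G B := hTf.mono hBT
  have h1 : oc G {s : Set (Quotient (quoS hE)) | ∃ x y z, quoTri hE x y z ∧ s = {x, y, z}} ≤
      oc G A := by
    refine (FinOrb.map (fun s : Set K.V => quoP hE '' s) hAf
      (fun g s _ _ => quo_image_smul hE hG g s) ?_).2
    rintro _ ⟨p, q, r, ⟨h1, h2, h3, x, y, z, h, rfl, rfl, rfl⟩, rfl⟩
    refine ⟨{x, y, z}, ⟨x, y, z, h, fun e => h1 ((quoP_eq hE).2 e),
      fun e => h2 ((quoP_eq hE).2 e), fun e => h3 ((quoP_eq hE).2 e), rfl⟩, 1, ?_⟩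
    rw [one_smul, quo_image_triple]
  have h2 : oc G (A ∪ B) = oc G A + oc G B := by
    refine oc_union hAf hBf ?_
    rintro _ ⟨x, y, z, h, n1, n2, n3, rfl⟩ _ ⟨x', y', z', h', e', rfl⟩ g hg
    -- any two different elements of `{x,y,z}` are inequivalent
    have key : ∀ a ∈ ({x, y, z} : Set K.V), ∀ b ∈ ({x, y, z} : Set K.V), E a b → a = b := by
      intro a ha b hb hab
      simp only [Set.mem_insert_iff, Set.mem_singleton_iff] at ha hb
      rcases ha with rfl | rfl | rfl <;> rcases hb with rfl | rfl | rfl <;>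
        first
        | rfl
        | exact absurd hab n1
        | exact absurd hab n2
        | exact absurd hab n3
        | exact absurd (hE.symm hab) n1
        | exact absurd (hE.symm hab) n2
        | exact absurd (hE.symm hab) n3
    have hx' : x' ∈ g • ({x, y, z} : Set K.V) := by rw [hg]; simp
    have hy' : y' ∈ g • ({x, y, z} : Set K.V) := by rw [hg]; simp
    obtain ⟨a, ha, hax⟩ := hx'
    obtain ⟨b, hb, hby⟩ := hy'
    have hab : E a b := by
      have := hG g⁻¹ x' y' e'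
      rw [← hax, ← hby] at this
      simpa using this
    have := key a ha b hb hab
    have hxy : x' = y' := by rw [← hax, ← hby, this]
    exact (K.tri_ne h').1 hxy
  have h3 : oc G (A ∪ B) ≤ oc G T := oc_mono hTf (Set.union_subset hAT hBT)
  have h4 : rr K = oc G T := rfl
  rw [h4]
  calc _ ≤ oc G A + oc G B := Nat.add_le_add_right h1 _
    _ = oc G (A ∪ B) := h2.symm
    _ ≤ oc G T := h3

theorem st_QUO : ST_QUO := by
  intro G _ K E hE hG hc h2 hs
  refine ⟨quoCx hE hG hc h2 hs, quoP hE, quoP_surj hE, fun x y => quoP_eq hE,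
    fun g x => rfl, fun p q => Iff.rfl, fun p q r => Iff.rfl, ?_⟩
  exact quo_count K E hE hG

end Pool.Agent.Helper93.HZ
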